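import Mathlib
import Pool.Agent.Q163.LE.Meas
import Pool.Agent.TH818.SA.Sub

set_option autoImplicit false

/-!
# Finitely many elements of a finite-dimensional space over a simultaneously Liouville field
-/

namespace Run7.h838.OZ

open Pool.Agent.Q163.LE Pool.Agent.TH818.SA

/-- finitely many elements of a space of dimension `≤ D` over a simultaneously Liouville field are
simultaneously approximable -/
theorem sim_space {F : Subfield ℝ} (hF : SimLiouville F) (W : Submodule F ℝ)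
    [FiniteDimensional F W] (D : ℕ) (hD : Module.finrank F W ≤ D) (J : Finset ℕ) (x : ℕ → ℝ)
    (hx : ∀ i ∈ J, x i ∈ W) (q0 : ℕ) :
    ∃ q : ℕ, q0 ≤ q ∧ ∀ i ∈ J, ∃ p : ℤ,
      |(q : ℝ) * x i - p| < (q : ℝ) ^ (-(1 / ((D : ℝ) + 1))) := by
  classical
  -- add the vector `1`
  let W' : Submodule F ℝ := W ⊔ Submodule.span F {(1 : ℝ)}
  have : FiniteDimensional F (Submodule.span F {(1 : ℝ)}) :=
    FiniteDimensional.span_singleton F (1 : ℝ)
  have : FiniteDimensional F W' := Submodule.finiteDimensional_sup _ _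
  have hW' : Module.finrank F W' ≤ D + 1 := by
    have h1 := Submodule.finrank_add_le_finrank_add_finrank W (Submodule.span F {(1 : ℝ)})
    have h2 : Module.finrank F (Submodule.span F {(1 : ℝ)}) = 1 := finrank_span_singleton one_ne_zero
    rw [h2] at h1
    exact h1.trans (by omega)
  have h1W : (1 : ℝ) ∈ W' := Submodule.mem_sup_right (Submodule.mem_span_singleton_self _)
  obtain ⟨v, hv⟩ := exists_span F W' h1W D hW'
  choose! r cc hrc using hv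
  obtain ⟨a, ha⟩ : ∃ a : ℕ, a = 2 * D + 5 := ⟨_, rfl⟩
  obtain ⟨κ, hκ⟩ : ∃ κ : ℕ, κ = a * D + 2 * D + 3 := ⟨_, rfl⟩
  obtain ⟨M, hM1, hM2, hM3⟩ := approx_step (ι := J) hF v (fun j => x j) (fun j => r (x j))
    (fun j => cc (x j)) (fun j => hrc _ (Submodule.mem_sup_left (hx j j.2))) κ
    (q0 + (D + 1) ^ (D + 1) + 1)
  have hMD : (D + 1) ^ (D + 1) < M := by omega
  have hMr : (1 : ℝ) ≤ M := by exact_mod_cast hM2
  have hM0 : (0 : ℝ) < M := by linarith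
  obtain ⟨t, ht1, ht2, ht3⟩ := dirichlet_sim D v (M ^ a) (Nat.one_le_pow _ _ hM2)
  choose P hP using ht3
  refine ⟨M * t, ?_, fun i hi => ?_⟩
  · calc q0 ≤ M * 1 := by omega
      _ ≤ M * t := Nat.mul_le_mul_left M ht1
  obtain ⟨p0, p, hp1, hp2⟩ := hM3 ⟨i, hi⟩
  refine ⟨t * p0 + ∑ j, p j * P j, ?_⟩
  have e1 : ((M * t : ℕ) : ℝ) * x i - ((t * p0 + ∑ j, p j * P j : ℤ) : ℝ) =
      t * ((M : ℝ) * x i - p0 - ∑ j, (p j : ℝ) * v j) +
        ∑ j, (p j : ℝ) * ((t : ℝ) * v j - P j) := by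
    push_cast
    simp only [mul_sub, Finset.sum_sub_distrib, Finset.mul_sum]
    have : ∑ j, (t : ℝ) * ((p j : ℝ) * v j) = ∑ j, (p j : ℝ) * ((t : ℝ) * v j) :=
      Finset.sum_congr rfl fun _ _ => by ring
    rw [this]
    ring
  have htr : (1 : ℝ) ≤ t := by exact_mod_cast ht1
  have htr2 : (t : ℝ) ≤ (M : ℝ) ^ (a * D) := by
    have : (t : ℝ) ≤ (((M ^ a) ^ D : ℕ) : ℝ) := by exact_mod_cast ht2
    rw [← pow_mul] at this
    exact_mod_cast this
  have e2 : |((M * t : ℕ) : ℝ) * x i - ((t * p0 + ∑ j, p j * P j : ℤ) : ℝ)| <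
      ((D : ℝ) + 1) / (M : ℝ) ^ (2 * D + 3) := by
    rw [e1]
    have f1 : |(t : ℝ) * ((M : ℝ) * x i - p0 - ∑ j, (p j : ℝ) * v j)| <
        1 / (M : ℝ) ^ (2 * D + 3) := by
      rw [abs_mul, Nat.abs_cast]
      calc (t : ℝ) * |(M : ℝ) * x i - p0 - ∑ j, (p j : ℝ) * v j|
          < t * (1 / (M : ℝ) ^ κ) := mul_lt_mul_of_pos_left hp2 (by linarith)
        _ ≤ (M : ℝ) ^ (a * D) * (1 / (M : ℝ) ^ κ) :=
            mul_le_mul_of_nonneg_right htr2 (by positivity)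
        _ = 1 / (M : ℝ) ^ (2 * D + 3) := by
            rw [hκ, add_assoc, pow_add]
            field_simp
    have f2 : |∑ j, (p j : ℝ) * ((t : ℝ) * v j - P j)| ≤ D * (1 / (M : ℝ) ^ (2 * D + 3)) := by
      refine (Finset.abs_sum_le_sum_abs _ _).trans ?_
      have f3 : ∀ j ∈ (Finset.univ : Finset (Fin D)), |(p j : ℝ) * ((t : ℝ) * v j - P j)| ≤
          1 / (M : ℝ) ^ (2 * D + 3) := by
        intro j _
        rw [abs_mul]
        calc |(p j : ℝ)| * |(t : ℝ) * v j - P j|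
            ≤ (M : ℝ) ^ 2 * (1 / ((M ^ a : ℕ) : ℝ)) :=
              mul_le_mul (hp1 j) (hP j).le (abs_nonneg _) (by positivity)
          _ = 1 / (M : ℝ) ^ (2 * D + 3) := by
              rw [ha, show 2 * D + 5 = (2 * D + 3) + 2 by ring, pow_add]
              push_cast
              rw [pow_add]
              field_simp
      refine (Finset.sum_le_card_nsmul _ _ _ f3).trans (le_of_eq ?_)
      rw [Finset.card_univ, Fintype.card_fin, nsmul_eq_mul]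
    calc |t * ((M : ℝ) * x i - p0 - ∑ j, (p j : ℝ) * v j) +
          ∑ j, (p j : ℝ) * ((t : ℝ) * v j - P j)|
        ≤ |(t : ℝ) * ((M : ℝ) * x i - p0 - ∑ j, (p j : ℝ) * v j)| +
          |∑ j, (p j : ℝ) * ((t : ℝ) * v j - P j)| := abs_add_le _ _
      _ < 1 / (M : ℝ) ^ (2 * D + 3) + D * (1 / (M : ℝ) ^ (2 * D + 3)) := add_lt_add_of_lt_of_le f1 f2
      _ = _ := by ring
  refine e2.trans ?_
  have hMt : (0 : ℝ) < ((M * t : ℕ) : ℝ) := by
    have : 0 < M * t := Nat.mul_pos (by omega) (by omega)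
    exact_mod_cast this
  have e3 : (((D : ℝ) + 1) / (M : ℝ) ^ (2 * D + 3)) ^ (D + 1) < (((M * t : ℕ) : ℝ))⁻¹ := by
    have f1 : ((M * t : ℕ) : ℝ) ≤ (M : ℝ) ^ (1 + a * D) := by
      push_cast
      rw [pow_add, pow_one]
      exact mul_le_mul_of_nonneg_left htr2 hM0.le
    have f2 : ((D : ℝ) + 1) ^ (D + 1) < M := by exact_mod_cast hMD
    rw [div_pow, div_lt_iff₀ (by positivity), ← div_eq_inv_mul, lt_div_iff₀ hMt]
    calc ((D : ℝ) + 1) ^ (D + 1) * ((M * t : ℕ) : ℝ)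
        ≤ ((D : ℝ) + 1) ^ (D + 1) * (M : ℝ) ^ (1 + a * D) :=
          mul_le_mul_of_nonneg_left f1 (by positivity)
      _ < M * (M : ℝ) ^ (1 + a * D) := mul_lt_mul_of_pos_right f2 (by positivity)
      _ = (M : ℝ) ^ (2 + a * D) := by ring
      _ ≤ ((M : ℝ) ^ (2 * D + 3)) ^ (D + 1) := by
          rw [← pow_mul]
          refine pow_le_pow_right₀ hMr ?_
          rw [ha]
          nlinarith
  obtain ⟨B, hB⟩ : ∃ B : ℝ, B = ((D : ℝ) + 1) / (M : ℝ) ^ (2 * D + 3) := ⟨_, rfl⟩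
  have hB0 : 0 ≤ B := by rw [hB]; positivity
  rw [← hB] at e3 ⊢
  have e4 : B = (B ^ (D + 1)) ^ (1 / ((D : ℝ) + 1)) := by
    rw [← Real.rpow_natCast, ← Real.rpow_mul hB0]
    push_cast
    rw [mul_one_div_cancel (by positivity), Real.rpow_one]
  rw [e4]
  have e5 : ((M * t : ℕ) : ℝ) ^ (-(1 / ((D : ℝ) + 1))) =
      (((M * t : ℕ) : ℝ)⁻¹) ^ (1 / ((D : ℝ) + 1)) := by
    rw [Real.rpow_neg hMt.le, Real.inv_rpow hMt.le]
  rw [e5]
  exact Real.rpow_lt_rpow (by positivity) e3 (by positivity)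

/-- odd zeta values outside finite-dimensional spaces over simultaneously Liouville fields -/
theorem space_odd : ∃ s0 : ℕ, ∀ s ≥ s0, ∀ D : ℕ, 1 ≤ D →
    (D : ℝ) ≤ (1 / 2000) * Real.log (Real.log s) →
    ∀ F : Subfield ℝ, SimLiouville F → ∀ W : Submodule F ℝ, FiniteDimensional F W →
    Module.finrank F W ≤ D →
    (1 / 2000) / D * Real.sqrt (s * Real.log (Real.log s) / Real.log s) ≤
      (Set.ncard {i : ℕ | 3 ≤ i ∧ i ≤ s ∧ Odd i ∧ (∑' n : ℕ, 1 / ((n : ℝ) + 1) ^ i) ∉ W} : ℝ) := by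
  classical
  obtain ⟨s0, hs0⟩ := t_final
  refine ⟨s0, fun s hs D hD hDL F hF V hV hVD => ?_⟩
  have hDr : (1 : ℝ) ≤ D := by exact_mod_cast hD
  have h1 : ((D + 1 : ℕ) : ℝ) ≤ (1 / 1000) * Real.log (Real.log s) := by
    push_cast
    linarith
  obtain ⟨q0, hq0⟩ := hs0 s hs (D + 1) (by omega) h1
  obtain ⟨J, hJ⟩ : ∃ J : Finset ℕ, J = (Finset.Icc 3 s).filter (fun i => Odd i ∧
    (∑' n : ℕ, 1 / ((n : ℝ) + 1) ^ i) ∈ V) := ⟨_, rfl⟩
  obtain ⟨q, hqq0, hq⟩ := sim_space hF V D hVD J (fun i => ∑' n : ℕ, 1 / ((n : ℝ) + 1) ^ i)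
    (fun i hi => by
      rw [hJ, Finset.mem_filter] at hi
      exact hi.2.2) q0
  have h2 := hq0 q hqq0
  have h3 : (1 / 2000) / D * Real.sqrt (s * Real.log (Real.log s) / Real.log s) ≤
      (1 / 1000) / ((D + 1 : ℕ) : ℝ) * Real.sqrt (s * Real.log (Real.log s) / Real.log s) := by
    apply mul_le_mul_of_nonneg_right _ (Real.sqrt_nonneg _)
    push_cast
    rw [div_le_div_iff₀ (by positivity) (by positivity)]
    linarith
  refine (h3.trans h2).trans ?_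
  have hfin : {i : ℕ | 3 ≤ i ∧ i ≤ s ∧ Odd i ∧ (∑' n : ℕ, 1 / ((n : ℝ) + 1) ^ i) ∉ V}.Finite :=
    (Set.finite_Iic s).subset fun i hi => hi.2.1
  have hsub : {i : ℕ | 3 ≤ i ∧ i ≤ s ∧ Odd i ∧ ∀ p : ℤ, (q : ℝ) ^ (-(1 / ((D + 1 : ℕ) : ℝ))) ≤
      |(q : ℝ) * (∑' n : ℕ, 1 / ((n : ℝ) + 1) ^ i) - p|} ⊆
      {i : ℕ | 3 ≤ i ∧ i ≤ s ∧ Odd i ∧ (∑' n : ℕ, 1 / ((n : ℝ) + 1) ^ i) ∉ V} := by
    rintro i ⟨a1, a2, a3, a4⟩
    refine ⟨a1, a2, a3, fun hmem => ?_⟩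
    have hiJ : i ∈ J := by
      rw [hJ, Finset.mem_filter, Finset.mem_Icc]
      exact ⟨⟨a1, a2⟩, a3, hmem⟩
    obtain ⟨p, hp⟩ := hq i hiJ
    have h4 := a4 p
    push_cast at h4
    linarith
  exact_mod_cast Set.ncard_le_ncard hsub hfin

end Run7.h838.OZ
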