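import Pool.Agent.Run7.h838.OZ.Sp
import Pool.Agent.Run7.h123.LC.LinX

set_option autoImplicit false

/-!
# Windows of odd zeta values and finite-dimensional spaces over simultaneously Liouville fields
-/

namespace Run7.h838.OZ

open Pool.Agent.Q163.LE

/-- odd zeta values of a window outside finite-dimensional spaces over simultaneously Liouville
fields -/
theorem space_window : ∃ K0 : ℕ, ∀ K ≥ K0, ∀ s : ℕ, Odd s → ∀ D : ℕ,
    (D : ℝ) + 1 ≤ Real.log K / 125 →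
    ∀ F : Subfield ℝ, SimLiouville F → ∀ W : Submodule F ℝ, FiniteDimensional F W →
    Module.finrank F W ≤ D →
    Real.exp (-(31 * ((D : ℝ) + 1))) * Real.sqrt (K / Real.log K) ≤
      (Set.ncard {i : ℕ | s < i ∧ i ≤ K * s ∧ Odd i ∧
        (∑' n : ℕ, 1 / ((n : ℝ) + 1) ^ i) ∉ W} : ℝ) := by
  classical
  obtain ⟨K0, hK0⟩ := Pool.Agent.Run7.h123.LC.window_large
  refine ⟨K0, fun K hK s hs D hDL F hF V hV hVD => ?_⟩
  obtain ⟨q0, hq0⟩ := hK0 K hK s hs (D + 1) (by omega) (by push_cast; exact hDL)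
  obtain ⟨J, hJ⟩ : ∃ J : Finset ℕ, J = (Finset.Icc 0 (K * s)).filter (fun i => Odd i ∧
    (∑' n : ℕ, 1 / ((n : ℝ) + 1) ^ i) ∈ V) := ⟨_, rfl⟩
  obtain ⟨q, hqq0, hq⟩ := sim_space hF V D hVD J (fun i => ∑' n : ℕ, 1 / ((n : ℝ) + 1) ^ i)
    (fun i hi => by
      rw [hJ, Finset.mem_filter] at hi
      exact hi.2.2) q0
  have h2 := hq0 q hqq0
  push_cast at h2
  refine h2.trans ?_
  have hfin : {i : ℕ | s < i ∧ i ≤ K * s ∧ Odd i ∧
      (∑' n : ℕ, 1 / ((n : ℝ) + 1) ^ i) ∉ V}.Finite :=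
    (Set.finite_Iic (K * s)).subset fun i hi => hi.2.1
  refine Nat.cast_le.2 (Set.ncard_le_ncard ?_ hfin)
  rintro i ⟨a1, a2, a3, a4⟩
  refine ⟨a1, a2, a3, fun hmem => ?_⟩
  have hiJ : i ∈ J := by
    rw [hJ, Finset.mem_filter, Finset.mem_Icc]
    exact ⟨⟨Nat.zero_le _, a2⟩, a3, hmem⟩
  obtain ⟨p, hp⟩ := hq i hiJ
  have h4 := a4 p
  linarith

end Run7.h838.OZ
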